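import Pool.Agent.H174.GP.StH

/-! GP helm: Helmert transformation of a standard normal sequence -/

set_option autoImplicit false

open MeasureTheory ProbabilityTheory Finset Filter Topology

namespace Pool.Agent.H779.GP174

open Pool.Agent.H174.GP

/-- the Helmert transform of `z` (coordinates `1..n`) -/
noncomputable def Mz (z : ℕ → ℝ) (n j : ℕ) : ℝ :=
  if j < n then (S z j - (j : ℝ) * z (j + 1)) / Real.sqrt ((j : ℝ) * ((j : ℝ) + 1)) else S z n / Real.sqrt n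

lemma S_succ (z : ℕ → ℝ) (j : ℕ) : S z (j + 1) = S z j + z (j + 1) := by
  unfold S
  rw [Finset.sum_Icc_succ_top (by omega)]

lemma S_congr {z z' : ℕ → ℝ} {n : ℕ} (h : ∀ j ∈ Finset.Icc 1 n, z j = z' j) {j : ℕ} (hj : j ≤ n) :
    S z j = S z' j := by
  unfold S
  refine Finset.sum_congr rfl fun i hi => h i ?_
  rw [Finset.mem_Icc] at hi ⊢
  omega

lemma Mz_congr {z z' : ℕ → ℝ} {n : ℕ} (h : ∀ j ∈ Finset.Icc 1 n, z j = z' j) {j : ℕ} :
    Mz z n j = Mz z' n j := by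
  unfold Mz
  split_ifs with hj
  · rw [S_congr h hj.le, h (j + 1) (by rw [Finset.mem_Icc]; omega)]
  · rw [S_congr h le_rfl]

lemma Hz_congr {z z' : ℕ → ℝ} {n : ℕ} (hn : 1 ≤ n) (h : ∀ j ∈ Finset.Icc 1 n, z j = z' j) (x : ℕ) :
    Hz z n x = Hz z' n x := by
  unfold Hz
  congr 1
  · refine Finset.sum_congr rfl fun i hi => ?_
    rw [Finset.mem_Icc] at hi
    rw [h i (by rw [Finset.mem_Icc]; omega)]
  · rw [h n (by rw [Finset.mem_Icc]; omega)]

/-- summation by parts -/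
lemma parts (a : ℕ → ℝ) (x n : ℕ) :
    (∑ j ∈ Finset.Icc 1 n, ((min j x : ℕ) : ℝ) * (a j - a (j + 1))) + ((min (n + 1) x : ℕ) : ℝ) * a (n + 1)
      = ∑ u ∈ Finset.Icc 1 (min (n + 1) x), a u := by
  induction n with
  | zero =>
    rcases Nat.eq_zero_or_pos x with hx | hx
    · subst hx; simp
    · have : min (0 + 1) x = 1 := by omega
      rw [this]; simp
  | succ n ih =>
    rw [Finset.sum_Icc_succ_top (by omega)]
    by_cases hx : n + 2 ≤ x
    · have h1 : min (n + 1 + 1) x = n + 2 := by omega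
      have h2 : min (n + 1) x = n + 1 := by omega
      rw [h2] at ih ⊢
      rw [h1, Finset.sum_Icc_succ_top (show 1 ≤ (n + 1) + 1 by omega), ← ih]
      push_cast
      ring
    · have h1 : min (n + 1 + 1) x = x := by omega
      have h2 : min (n + 1) x = x := by omega
      rw [h2] at ih ⊢
      rw [h1, ← ih]
      ring

lemma Mz_lt (z : ℕ → ℝ) {n j : ℕ} (hj : 1 ≤ j) (hjn : j < n) :
    Mz z n j / Real.sqrt ((j : ℝ) * ((j : ℝ) + 1)) = S z j / (j : ℝ) - S z (j + 1) / ((j + 1 : ℕ) : ℝ) := by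
  have hj0 : (0 : ℝ) < j := by exact_mod_cast hj
  have hpos : (0 : ℝ) < (j : ℝ) * ((j : ℝ) + 1) := by positivity
  unfold Mz
  rw [if_pos hjn, div_div, Real.mul_self_sqrt hpos.le, S_succ]
  push_cast
  field_simp
  ring

lemma Hw_eq (z : ℕ → ℝ) {n x : ℕ} (hn : 1 ≤ n) (hx : x ≤ n) : Hw z x = Hz (Mz z n) n x := by
  obtain ⟨m, rfl⟩ : ∃ m, n = m + 1 := ⟨n - 1, by omega⟩
  have h := parts (fun u => S z u / (u : ℝ)) x m
  have hmin : min (m + 1) x = x := by omega
  rw [hmin] at h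
  unfold Hw Hz
  rw [← h, Nat.add_sub_cancel]
  congr 1
  · refine Finset.sum_congr rfl fun j hj => ?_
    rw [Finset.mem_Icc] at hj
    rw [Mz_lt z hj.1 (by omega)]
  · congr 1
    unfold Mz
    rw [if_neg (by omega), div_div, Real.mul_self_sqrt (by positivity)]

/-- the Helmert transformation preserves the sum of squares -/
lemma sq_sum (z : ℕ → ℝ) (n N : ℕ) (hN : n < N) :
    (∑ j ∈ Finset.Icc 1 n, (Mz z N j) ^ 2) + (S z (n + 1)) ^ 2 / ((n + 1 : ℕ) : ℝ) =
      ∑ j ∈ Finset.Icc 1 (n + 1), (z j) ^ 2 := by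
  induction n with
  | zero => simp [S]
  | succ n ih =>
    rw [Finset.sum_Icc_succ_top (by omega), Finset.sum_Icc_succ_top (show 1 ≤ (n + 1) + 1 by omega),
      ← ih (by omega)]
    have hpos : (0 : ℝ) < ((n + 1 : ℕ) : ℝ) * (((n + 1 : ℕ) : ℝ) + 1) := by positivity
    have h0 : (0 : ℝ) < ((n + 1 : ℕ) : ℝ) := by positivity
    have h1 : (Mz z N (n + 1)) ^ 2 = (S z (n + 1) - ((n + 1 : ℕ) : ℝ) * z (n + 1 + 1)) ^ 2 /
        (((n + 1 : ℕ) : ℝ) * (((n + 1 : ℕ) : ℝ) + 1)) := by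
      unfold Mz
      rw [if_pos hN, div_pow, Real.sq_sqrt hpos.le]
    rw [h1, S_succ z (n + 1)]
    have h2 : ((n + 1 + 1 : ℕ) : ℝ) = ((n + 1 : ℕ) : ℝ) + 1 := by push_cast; ring
    rw [h2]
    generalize ((n + 1 : ℕ) : ℝ) = k at *
    field_simp
    ring

lemma sq_sum' (z : ℕ → ℝ) {n : ℕ} (hn : 1 ≤ n) :
    ∑ j ∈ Finset.Icc 1 n, (Mz z n j) ^ 2 = ∑ j ∈ Finset.Icc 1 n, (z j) ^ 2 := by
  obtain ⟨m, rfl⟩ : ∃ m, n = m + 1 := ⟨n - 1, by omega⟩
  rw [← sq_sum z m (m + 1) (by omega), Finset.sum_Icc_succ_top (by omega)]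
  congr 1
  unfold Mz
  rw [if_neg (by omega), div_pow, Real.sq_sqrt (by positivity)]

/-- extension of a vector to a sequence -/
noncomputable def ext (n : ℕ) (v : EuclideanSpace ℝ (Fin n)) (j : ℕ) : ℝ :=
  if h : 1 ≤ j ∧ j ≤ n then v ⟨j - 1, by omega⟩ else 0

lemma ext_succ (n : ℕ) (v : EuclideanSpace ℝ (Fin n)) (i : Fin n) : ext n v ((i : ℕ) + 1) = v i := by
  unfold ext
  rw [dif_pos ⟨by omega, by omega⟩]
  exact congrArg (fun k : Fin n => v k) (Fin.ext (by simp))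

lemma ext_add (n : ℕ) (v w : EuclideanSpace ℝ (Fin n)) (j : ℕ) : ext n (v + w) j = ext n v j + ext n w j := by
  unfold ext
  split_ifs with h <;> simp

lemma ext_smul (n : ℕ) (c : ℝ) (v : EuclideanSpace ℝ (Fin n)) (j : ℕ) : ext n (c • v) j = c * ext n v j := by
  unfold ext
  split_ifs with h <;> simp

lemma Mz_add (a b c : ℕ → ℝ) (h : ∀ j, c j = a j + b j) (n j : ℕ) : Mz c n j = Mz a n j + Mz b n j := by
  have hS : ∀ j, S c j = S a j + S b j := fun j => by
    unfold S; rw [← Finset.sum_add_distrib]; exact Finset.sum_congr rfl fun i _ => h i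
  unfold Mz
  split_ifs with hj
  · rw [hS, h]; ring
  · rw [hS]; ring

lemma Mz_smul (a c : ℕ → ℝ) (r : ℝ) (h : ∀ j, c j = r * a j) (n j : ℕ) : Mz c n j = r * Mz a n j := by
  have hS : ∀ j, S c j = r * S a j := fun j => by
    unfold S; rw [Finset.mul_sum]; exact Finset.sum_congr rfl fun i _ => h i
  unfold Mz
  split_ifs with hj
  · rw [hS, h]; ring
  · rw [hS]; ring

/-- the Helmert transformation as a linear map -/
noncomputable def TL (n : ℕ) : EuclideanSpace ℝ (Fin n) →ₗ[ℝ] EuclideanSpace ℝ (Fin n) where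
  toFun v := WithLp.toLp 2 (fun i : Fin n => Mz (ext n v) n ((i : ℕ) + 1))
  map_add' v w := by
    ext i
    simp only [PiLp.add_apply]
    exact Mz_add _ _ _ (ext_add n v w) n _
  map_smul' c v := by
    ext i
    simp only [PiLp.smul_apply, RingHom.id_apply, smul_eq_mul]
    exact Mz_smul _ _ c (ext_smul n c v) n _

lemma TL_apply (n : ℕ) (v : EuclideanSpace ℝ (Fin n)) (i : Fin n) :
    TL n v i = Mz (ext n v) n ((i : ℕ) + 1) := rfl

lemma sum_fin (f : ℕ → ℝ) (n : ℕ) : ∑ i : Fin n, f ((i : ℕ) + 1) = ∑ j ∈ Finset.Icc 1 n, f j := by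
  rw [← Finset.sum_range (fun i => f (i + 1)), Finset.range_eq_Ico, Finset.sum_Ico_add' f 0 n 1]
  rfl

lemma TL_norm (n : ℕ) (hn : 1 ≤ n) (v : EuclideanSpace ℝ (Fin n)) : ‖TL n v‖ = ‖v‖ := by
  have h : ‖TL n v‖ ^ 2 = ‖v‖ ^ 2 := by
    rw [EuclideanSpace.real_norm_sq_eq, EuclideanSpace.real_norm_sq_eq]
    simp only [TL_apply]
    rw [sum_fin (fun j => (Mz (ext n v) n j) ^ 2) n, sq_sum' _ hn,
      ← sum_fin (fun j => (ext n v j) ^ 2) n]
    refine Finset.sum_congr rfl fun i _ => ?_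
    rw [ext_succ]
  exact (pow_left_inj₀ (norm_nonneg _) (norm_nonneg _) two_ne_zero).1 h

/-- the Helmert transformation as a linear isometry -/
noncomputable def TI (n : ℕ) (hn : 1 ≤ n) : EuclideanSpace ℝ (Fin n) ≃ₗᵢ[ℝ] EuclideanSpace ℝ (Fin n) :=
  (⟨TL n, TL_norm n hn⟩ : EuclideanSpace ℝ (Fin n) →ₗᵢ[ℝ] EuclideanSpace ℝ (Fin n)).toLinearIsometryEquiv rfl

lemma TI_apply (n : ℕ) (hn : 1 ≤ n) (v : EuclideanSpace ℝ (Fin n)) : TI n hn v = TL n v := rfl

/-- the vector of the first `n` coordinates -/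
noncomputable def ZG (n : ℕ) (z : ℕ → ℝ) : EuclideanSpace ℝ (Fin n) :=
  WithLp.toLp 2 (fun i : Fin n => z ((i : ℕ) + 1))

lemma meas_ZG (n : ℕ) : Measurable (ZG n) := by
  unfold ZG
  exact (WithLp.measurable_toLp 2 _).comp (measurable_pi_lambda _ fun i => measurable_pi_apply _)

lemma map_ZG (n : ℕ) : GA.map (ZG n) = stdGaussian (EuclideanSpace ℝ (Fin n)) := by
  have hr : Measurable (fun (z : ℕ → ℝ) (i : Fin n) => z ((i : ℕ) + 1)) :=
    measurable_pi_lambda _ fun i => measurable_pi_apply _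
  have hind : iIndepFun (fun (i : ℕ) (ω : ℕ → ℝ) => ω i) (Measure.infinitePi (fun _ : ℕ => gaussianReal 0 1)) :=
    iIndepFun_infinitePi (X := fun _ x => x) (fun _ => measurable_id)
  have hinj : Function.Injective (fun i : Fin n => (i : ℕ) + 1) := fun a b h => by
    apply Fin.ext; simpa using h
  have hind2 : iIndepFun (fun (i : Fin n) (ω : ℕ → ℝ) => ω ((i : ℕ) + 1))
      (Measure.infinitePi (fun _ : ℕ => gaussianReal 0 1)) := hind.precomp hinj
  have hmap : (Measure.infinitePi (fun _ : ℕ => gaussianReal 0 1)).map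
      (fun (z : ℕ → ℝ) (i : Fin n) => z ((i : ℕ) + 1)) =
      Measure.pi (fun i : Fin n => (Measure.infinitePi (fun _ : ℕ => gaussianReal 0 1)).map
        (fun ω : ℕ → ℝ => ω ((i : ℕ) + 1))) :=
    (iIndepFun_iff_map_fun_eq_pi_map (f := fun (i : Fin n) (ω : ℕ → ℝ) => ω ((i : ℕ) + 1))
      (fun i => (measurable_pi_apply ((i : ℕ) + 1)).aemeasurable)).1 hind2
  have he : ∀ i : Fin n, (Measure.infinitePi (fun _ : ℕ => gaussianReal 0 1)).map
      (fun ω : ℕ → ℝ => ω ((i : ℕ) + 1)) = gaussianReal 0 1 := fun i => Measure.infinitePi_map_eval _ _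
  simp only [he] at hmap
  rw [← map_pi_eq_stdGaussian, ← hmap, Measure.map_map (WithLp.measurable_toLp 2 _) hr]
  rfl

lemma map_TZ (n : ℕ) (hn : 1 ≤ n) :
    GA.map (fun z => TI n hn (ZG n z)) = stdGaussian (EuclideanSpace ℝ (Fin n)) := by
  have h := stdGaussian_map (TI n hn)
  rw [← map_ZG n, Measure.map_map (TI n hn).continuous.measurable (meas_ZG n), map_ZG n] at h
  exact h

lemma ext_ZG (n : ℕ) (z : ℕ → ℝ) : ∀ j ∈ Finset.Icc 1 n, ext n (ZG n z) j = z j := by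
  intro j hj
  rw [Finset.mem_Icc] at hj
  have h := ext_succ n (ZG n z) ⟨j - 1, by omega⟩
  have e : j - 1 + 1 = j := by omega
  simp only [e] at h
  rw [h]
  show z (j - 1 + 1) = z j
  rw [e]

lemma ext_TZ (n : ℕ) (hn : 1 ≤ n) (z : ℕ → ℝ) :
    ∀ j ∈ Finset.Icc 1 n, ext n (TI n hn (ZG n z)) j = Mz z n j := by
  intro j hj
  have hj' := hj
  rw [Finset.mem_Icc] at hj
  have h := ext_succ n (TI n hn (ZG n z)) ⟨j - 1, by omega⟩
  have e : j - 1 + 1 = j := by omega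
  simp only [e] at h
  rw [h, TI_apply, TL_apply]
  simp only [e]
  exact Mz_congr (ext_ZG n z)

lemma ext_cont (n j : ℕ) : Continuous (fun v : EuclideanSpace ℝ (Fin n) => ext n v j) := by
  unfold ext
  split_ifs with h
  · fun_prop
  · exact continuous_const

theorem gp_helm : S_helm := by
  intro n X t hn hX
  set A : Set (EuclideanSpace ℝ (Fin n)) := {v | ∀ x ∈ X, t x ≤ Hz (ext n v) n x} with hA
  have hAc : IsClosed A := by
    have : A = ⋂ x ∈ X, {v | t x ≤ Hz (ext n v) n x} := by ext v; simp [hA]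
    rw [this]
    refine isClosed_biInter fun x _ => isClosed_le continuous_const ?_
    unfold Hz
    have hc := ext_cont n
    fun_prop
  have hAm : MeasurableSet A := hAc.measurableSet
  have e1 : {z : ℕ → ℝ | ∀ x ∈ X, t x ≤ Hz z n x} = ZG n ⁻¹' A := by
    ext z
    simp only [hA, Set.mem_ofPred_eq, Set.mem_preimage]
    refine forall₂_congr fun x _ => ?_
    rw [Hz_congr hn (ext_ZG n z) x]
  have e2 : {z : ℕ → ℝ | ∀ x ∈ X, t x ≤ Hw z x} = (fun z => TI n hn (ZG n z)) ⁻¹' A := by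
    ext z
    simp only [hA, Set.mem_ofPred_eq, Set.mem_preimage]
    refine forall₂_congr fun x hx => ?_
    have hxn := hX hx
    rw [Finset.mem_Icc] at hxn
    rw [Hz_congr hn (ext_TZ n hn z) x, Hw_eq z hn hxn.2]
  have e3 : GA ((fun z => TI n hn (ZG n z)) ⁻¹' A) = GA.map (fun z => TI n hn (ZG n z)) A :=
    (Measure.map_apply ((TI n hn).continuous.measurable.comp (meas_ZG n)) hAm).symm
  have e4 : GA (ZG n ⁻¹' A) = GA.map (ZG n) A := (Measure.map_apply (meas_ZG n) hAm).symm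
  rw [e1, e2]
  unfold Measure.real
  rw [e3, e4, map_ZG, map_TZ]

end Pool.Agent.H779.GP174
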